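import Mathlib
import Pool.Agent.W188.QS.Stm2

set_option autoImplicit false

/-!
# Project GP: moments of zeta and one line (Gram points) (helper188)

For every real `p > 1` and every line through `0` the `p`-th moment of `ζ` on the critical line and the discrete
moment over the points at which `ζ(1/2+it)` lies on the line have the same order of magnitude.
-/

open Complex MeasureTheory Set Filter Topology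

namespace Pool.Agent.W188.GP

open Pool.Agent.W188.QS

/-! ## The discrete Hilbert transform -/

/-- the kernel `1/j`, `j ≠ 0` -/
noncomputable def hk (j : ℤ) : ℂ := if j = 0 then 0 else 1 / (j : ℂ)

/-- the discrete Hilbert transform of a finite sequence -/
noncomputable def HT (S : Finset ℤ) (a : ℤ → ℂ) (m : ℤ) : ℂ := ∑ n ∈ S, a n * hk (m - n)

/-- `ℓ^p` bound with constant `h` -/
def HB (p h : ℝ) : Prop := ∀ (S S' : Finset ℤ) (a : ℤ → ℂ),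
  ∑ m ∈ S', ‖HT S a m‖ ^ p ≤ h ^ p * ∑ n ∈ S, ‖a n‖ ^ p

/-- H2 -/
def StH2 : Prop := ∃ h : ℝ, 0 ≤ h ∧ HB 2 h

/-- COT: Cotlar's identity -/
def StCot : Prop := ∀ (S : Finset ℤ) (a : ℤ → ℂ) (m : ℤ),
  HT S a m ^ 2 = ∑ n ∈ S, a n ^ 2 * hk (m - n) ^ 2 + 2 * ∑ n ∈ S, a n * HT S a n * hk (m - n) +
    2 * (if m ∈ S then a m else 0) * ∑ n ∈ S, a n * hk (m - n) ^ 2

/-- DBL: from `p` to `2p` -/
def StDbl : Prop := ∀ p h : ℝ, 1 ≤ p → 0 ≤ h → HB p h → ∃ h' : ℝ, 0 ≤ h' ∧ HB (2 * p) h'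

/-- RT: Riesz-Thorin for finite matrices, equal exponents on both sides -/
def StRT : Prop := ∀ p₀ p₁ p h : ℝ, 1 < p₀ → p₀ ≤ p → p ≤ p₁ → 0 ≤ h →
  ∀ (S S' : Finset ℤ) (k : ℤ → ℤ → ℂ),
  (∀ a : ℤ → ℂ, ∑ m ∈ S', ‖∑ n ∈ S, a n * k m n‖ ^ p₀ ≤ h ^ p₀ * ∑ n ∈ S, ‖a n‖ ^ p₀) →
  (∀ a : ℤ → ℂ, ∑ m ∈ S', ‖∑ n ∈ S, a n * k m n‖ ^ p₁ ≤ h ^ p₁ * ∑ n ∈ S, ‖a n‖ ^ p₁) →
  ∀ a : ℤ → ℂ, ∑ m ∈ S', ‖∑ n ∈ S, a n * k m n‖ ^ p ≤ h ^ p * ∑ n ∈ S, ‖a n‖ ^ p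

/-- DUAL -/
def StDual : Prop := ∀ p h : ℝ, 1 < p → 0 ≤ h → HB p h → HB (p / (p - 1)) h

/-- HP: the discrete Hilbert transform is bounded on `ℓ^p`, `p > 1` -/
def StHp : Prop := ∀ p : ℝ, 1 < p → ∃ h : ℝ, 0 ≤ h ∧ HB p h

/-- OFF: the kernel `sin(πx)/(n-j-x)` -/
def StOff : Prop := ∀ p : ℝ, 1 < p → ∃ h : ℝ, 0 ≤ h ∧ ∀ x : ℝ, 0 < x → x < 1 →
  ∀ (S S' : Finset ℤ) (a : ℤ → ℂ),
  ∑ j ∈ S', ‖(Real.sin (Real.pi * x) : ℂ) * ∑ n ∈ S, a n / ((n : ℂ) - j - x)‖ ^ p ≤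
    h * ∑ n ∈ S, ‖a n‖ ^ p

/-- GAU: the same kernel with Gaussian factors -/
def StGau : Prop := ∀ p : ℝ, 1 < p → ∃ h : ℝ, 0 ≤ h ∧ ∀ x : ℝ, 0 < x → x < 1 →
  ∀ (S S' : Finset ℤ) (a : ℤ → ℂ) (r r' : ℤ → ℝ),
  ∑ j ∈ S', ‖(Real.sin (Real.pi * x) : ℂ) *
      ∑ n ∈ S, a n * (Real.exp (-(r n - r' j) ^ 2) : ℂ) / ((n : ℂ) - j - x)‖ ^ p ≤
    h * ∑ n ∈ S, ‖a n‖ ^ p

/-! ## The phase function and the nodes -/

/-- `lam`, extended to a positive function on the line -/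
noncomputable def lamE (t : ℝ) : ℝ := lam (max t 100)

/-- the phase: `XX (cp t) = XX (cp 100) e^{2π i vv t}` -/
noncomputable def vv (t : ℝ) : ℝ := 1 / (2 * Real.pi) * ∫ r in (100 : ℝ)..t, lamE r

/-- the inverse function of the phase -/
noncomputable def tau : ℝ → ℝ := Function.invFun vv

/-- the modulus of zeta on the critical line -/
noncomputable def ZZ (t : ℝ) : ℝ := ‖riemannZeta (cp t)‖

/-- indices of the nodes `tau (n + γ)` in `(a, b]` -/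
noncomputable def nd (γ a b : ℝ) : Finset ℤ := Finset.Ioc ⌊vv a - γ⌋ ⌊vv b - γ⌋

/-- the discrete moment over the nodes `tau (n + γ)` in `(a, b]` -/
noncomputable def DD (p γ a b : ℝ) : ℝ := ∑ n ∈ nd γ a b, ZZ (tau (n + γ)) ^ p

/-- TAU: properties of the phase -/
def StTau : Prop := StrictMono vv ∧ Continuous vv ∧ Continuous lamE ∧ (∀ t : ℝ, 1 ≤ lamE t) ∧
  (∀ t : ℝ, HasDerivAt vv (lamE t / (2 * Real.pi)) t) ∧ (∀ t : ℝ, tau (vv t) = t) ∧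
  (∀ y : ℝ, vv (tau y) = y) ∧ StrictMono tau ∧ Continuous tau ∧ vv 100 = 0 ∧
  (∀ t : ℝ, 100 ≤ t → XX (cp t) = XX (cp 100) * cexp (2 * Real.pi * vv t * I)) ∧
  (∀ t : ℝ, 100 ≤ t → lamE t = lam t ∧ lamE t ≤ Real.log t) ∧
  (∀ γ a b : ℝ, ∀ n : ℤ, n ∈ nd γ a b ↔ a < tau (n + γ) ∧ tau (n + γ) ≤ b)

/-- RESA: the residue theorem for `ζ(s) e^{(s-s₀)²} / ((1-w)(s-s₀))`, one line -/
def StResA : Prop := ∃ C T₀ : ℝ, ∀ (c : ℂ) (T t₀ : ℝ), ‖c‖ = 1 → T₀ ≤ T → T < t₀ → t₀ ≤ 8 * T →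
  ww c 1 (cp t₀) ≠ 1 → ∃ a b : ℝ, t₀ - Real.log T - 1 ≤ a ∧ a ≤ t₀ - Real.log T ∧
    t₀ + Real.log T ≤ b ∧ b ≤ t₀ + Real.log T + 1 ∧
    ‖riemannZeta (cp t₀) / (1 - ww c 1 (cp t₀)) +
      ∑ᶠ t ∈ PP c 1 ∩ Ioo a b, riemannZeta (cp t) * (Real.exp (-(t - t₀) ^ 2) : ℂ) /
        ((lam t : ℂ) * ((t - t₀ : ℝ) * I))‖ ≤ C

/-- LOC: the value at `t₀` in terms of the values at the nodes -/
def StLoc : Prop := ∃ C T₀ : ℝ, ∀ T γ t₀ : ℝ, T₀ ≤ T → T < t₀ → t₀ ≤ 8 * T →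
  (∀ n : ℤ, vv t₀ ≠ n + γ) →
  ZZ t₀ ≤ 2 * |Real.sin (Real.pi * (vv t₀ - γ))| * ‖∑ n ∈ nd γ (T / 2) (16 * T),
    riemannZeta (cp (tau (n + γ))) * (Real.exp (-(tau (n + γ) - t₀) ^ 2) : ℂ) /
      ((lam (tau (n + γ)) : ℂ) * (tau (n + γ) - t₀ : ℝ))‖ + C

/-- LOCB: the same with the kernel `1/(n + γ - vv t₀)` -/
def StLocB : Prop := ∃ C T₀ : ℝ, ∀ T γ t₀ : ℝ, T₀ ≤ T → T < t₀ → t₀ ≤ 8 * T →
  (∀ n : ℤ, vv t₀ ≠ n + γ) →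
  ZZ t₀ ≤ ‖(Real.sin (Real.pi * (vv t₀ - γ)) : ℂ) * ∑ n ∈ nd γ (T / 2) (16 * T),
    riemannZeta (cp (tau (n + γ))) * (Real.exp (-(tau (n + γ) - t₀) ^ 2) : ℂ) /
      ((n : ℂ) + γ - vv t₀)‖ +
    C * Real.log T / T * ∑ n ∈ nd γ (T / 2) (16 * T),
      ZZ (tau (n + γ)) * Real.exp (-(tau (n + γ) - t₀) ^ 2 / 2) + C

/-- LL: from one line to another line -/
def StLL : Prop := ∀ p : ℝ, 1 < p → ∃ C T₀ : ℝ, 0 < C ∧ ∀ T γ γ' : ℝ, T₀ ≤ T →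
  DD p γ' T (8 * T) ≤ C * (DD p γ (T / 2) (16 * T) + T * Real.log T)

/-- CO: average over the lines -/
def StCo : Prop := ∀ (f : ℝ → ℝ) (a b : ℝ), Continuous f → 100 ≤ a → a ≤ b →
  IntervalIntegrable (fun γ => ∑ n ∈ nd γ a b, f (tau (n + γ))) volume 0 1 ∧
  ∫ γ in (0 : ℝ)..1, ∑ n ∈ nd γ a b, f (tau (n + γ)) = 1 / (2 * Real.pi) * ∫ t in a..b, f t * lamE t

/-- LOW: the moments are large -/
def StLow : Prop := ∀ p : ℝ, 1 ≤ p → ∀ K : ℝ, ∀ᶠ T : ℝ in atTop,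
  K * T ≤ ∫ t in T..(8 * T), ZZ t ^ p

/-- FIN: comparison of the continuous and the discrete moments -/
def StFin : Prop := ∀ p : ℝ, 1 < p → ∃ C T₀ : ℝ, 0 < C ∧ ∀ T γ : ℝ, T₀ ≤ T →
  Real.log T * ∫ t in T..(8 * T), ZZ t ^ p ≤ C * DD p γ (T / 2) (16 * T) ∧
  DD p γ T (8 * T) ≤ C * (Real.log T * ∫ t in (T / 2)..(16 * T), ZZ t ^ p)

end Pool.Agent.W188.GP
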