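import Pool.Agent.W308.GP2.H2
import Pool.Agent.W918.GP.Cot
import Pool.Agent.W349.GP.DBL
import Pool.Agent.W19.GPR.RT
import Pool.Agent.W975.GP.Dual
import Pool.Agent.W762.GP.Hp
import Pool.Agent.W67.GP.Off
import Pool.Agent.W509.GP.Gau
import Pool.Agent.W32.GP.Tau
import Pool.Agent.W63.GP.ResA
import Pool.Agent.W565.GP.Loc
import Pool.Agent.W91.GP.LocB
import Pool.Agent.W108.GPL.LL
import Pool.Agent.W903.GP.CO
import Pool.Agent.W409.GP.Low
import Pool.Agent.W933.GP.Fin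

set_option autoImplicit false

/-! All parts of project GP, proved by the team (see the individual files). -/

namespace Pool.Agent.W188.GP

theorem a_hp : StHp := Pool.Agent.W762.GP.gp_hp Pool.Agent.W308.GP2.gp_h2
  (Pool.Agent.W349.GP.gp_dbl Pool.Agent.W918.GP.gp_cot) Pool.Agent.W19.GPR.gp_rt Pool.Agent.W975.GP.gp_dual
theorem a_gau : StGau := Pool.Agent.W509.GP.gp_gau (Pool.Agent.W67.GP.gp_off a_hp)
theorem a_tau : StTau := Pool.Agent.W32.GPT.gp_tau
theorem a_locb : StLocB := Pool.Agent.W91.GP.gp_locb a_tau (Pool.Agent.W565.GP.gp_loc a_tau Pool.Agent.W63.GP.gp_resA)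
theorem a_ll : StLL := Pool.Agent.W108.GPL.gp_ll a_tau a_locb a_gau
theorem a_fin : StFin := Pool.Agent.W933.GP.gp_fin a_tau a_ll (Pool.Agent.W903.GP.CO.gp_co a_tau) Pool.Agent.W409.GP.gp_low

end Pool.Agent.W188.GP
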