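import Pool.Agent.W188.GP.Fin2
import Pool.Agent.W338.QS.Line

set_option autoImplicit false

open Complex MeasureTheory Set Filter Topology

namespace Pool.Agent.W188.GP

open Pool.Agent.W188.QS

/-- the nonzero points on the line `ℝ u` -/
def LP (u : ℂ) : Set ℝ := {t | 100 < t ∧ ∃ r : ℝ, r ≠ 0 ∧ riemannZeta (cp t) = r * u}

/-- for a nonzero value: on the line iff `XX = c`, `c = (conj u / |u|)^2 = conj u / u` -/
lemma line_XX {u : ℂ} (hu : u ≠ 0) {t : ℝ} (ht : 1 ≤ t) (hz : riemannZeta (cp t) ≠ 0) :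
    (∃ r : ℝ, r ≠ 0 ∧ riemannZeta (cp t) = r * u) ↔ XX (cp t) = (starRingEnd ℂ) u / u := by
  have hfe := Pool.Agent.W338.QS.qs_line.2.2.1 t ht
  set x := riemannZeta (cp t) with hx
  have hX : XX (cp t) = (starRingEnd ℂ) x / x := by
    rw [hfe]; field_simp
  rw [hX]
  constructor
  · rintro ⟨r, hr, h⟩
    have hr' : (r : ℂ) ≠ 0 := by exact_mod_cast hr
    rw [h, map_mul, conj_ofReal]
    field_simp
  · intro h
    -- x / u is real
    have h2 : (starRingEnd ℂ) (x / u) = x / u := by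
      rw [map_div₀]
      have h3 : (starRingEnd ℂ) x * u = (starRingEnd ℂ) u * x := by
        field_simp at h
        linear_combination h
      have hcu : (starRingEnd ℂ) u ≠ 0 := by
        intro h4
        exact hu ((map_eq_zero _).1 h4)
      field_simp
      linear_combination h3
    obtain ⟨r, hr⟩ := conj_eq_iff_real.1 h2
    refine ⟨r, ?_, ?_⟩
    · rintro rfl
      simp at hr
      rcases hr with h5 | h5
      · exact hz h5
      · exact hu h5
    · have : x = x / u * u := by field_simp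
      rw [this, hr]

/-- translation of the sums -/
theorem trans (h : StTau) {u : ℂ} (hu : u ≠ 0) : ∃ γ : ℝ, ∀ p S T : ℝ, 0 < p → 100 ≤ S →
    ∑ᶠ t ∈ LP u ∩ Ioc S T, ZZ t ^ p = DD p γ S T ∧ (LP u ∩ Ioc S T).Finite := by
  obtain ⟨hmono, -, -, -, -, htv, hvt, htm, -, hv100, hphase, -, hnd⟩ := h
  have hX1 : ∀ t : ℝ, ‖XX (cp t)‖ = 1 := Pool.Agent.W338.QS.qs_line.2.1
  set c : ℂ := (starRingEnd ℂ) u / u with hc
  have hcn : ‖c‖ = 1 := by
    rw [hc, norm_div, norm_conj, div_self (norm_ne_zero_iff.2 hu)]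
  have hX0 : XX (cp 100) ≠ 0 := by
    intro h0
    have := hX1 100
    rw [h0] at this
    simp at this
  set y : ℂ := c / XX (cp 100) with hy
  have hyn : ‖y‖ = 1 := by rw [hy, norm_div, hcn, hX1]; norm_num
  set γ : ℝ := y.arg / (2 * Real.pi) with hγ
  have hyγ : y = cexp (2 * Real.pi * γ * I) := by
    have h1 := Complex.norm_mul_exp_arg_mul_I y
    rw [hyn, ofReal_one, one_mul] at h1
    have hpi : (Real.pi : ℂ) ≠ 0 := by exact_mod_cast Real.pi_ne_zero
    calc y = cexp (y.arg * I) := h1.symm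
      _ = cexp (2 * Real.pi * γ * I) := by
          congr 1
          rw [hγ]
          push_cast
          field_simp
  have hXc : ∀ t : ℝ, 100 ≤ t → (XX (cp t) = c ↔ ∃ n : ℤ, vv t = n + γ) := by
    intro t ht
    rw [hphase t ht]
    have e1 : (XX (cp 100) * cexp (2 * Real.pi * vv t * I) = c) ↔
        cexp (2 * Real.pi * vv t * I) = cexp (2 * Real.pi * γ * I) := by
      rw [← hyγ, hy, eq_div_iff hX0, mul_comm]
    rw [e1, Complex.exp_eq_exp_iff_exists_int]
    have hpi : (Real.pi : ℂ) ≠ 0 := by exact_mod_cast Real.pi_ne_zero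
    constructor
    · rintro ⟨n, hn⟩
      refine ⟨n, ?_⟩
      have h2 : (2 * Real.pi * I : ℂ) * (vv t : ℂ) = (2 * Real.pi * I) * ((n : ℂ) + γ) := by
        linear_combination hn
      have h3 := mul_left_cancel₀ (by simp [hpi] : (2 * Real.pi * I : ℂ) ≠ 0) h2
      exact_mod_cast h3
    · rintro ⟨n, hn⟩
      refine ⟨n, ?_⟩
      rw [hn]
      push_cast
      ring
  refine ⟨γ, fun p S T hp hS => ?_⟩
  set Q : Set ℝ := {t | ∃ n : ℤ, vv t = n + γ} with hQ
  have hset : Q ∩ Ioc S T = (fun n : ℤ => tau (n + γ)) '' (nd γ S T : Set ℤ) := by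
    ext t
    simp only [mem_inter_iff, mem_image, Finset.mem_coe]
    constructor
    · rintro ⟨⟨n, hn⟩, h2⟩
      have e : tau (n + γ) = t := by rw [← hn, htv]
      refine ⟨n, ?_, e⟩
      rw [hnd, e]
      exact h2
    · rintro ⟨n, hn, rfl⟩
      rw [hnd] at hn
      exact ⟨⟨n, hvt _⟩, hn⟩
  have hinj : Set.InjOn (fun n : ℤ => tau (n + γ)) (nd γ S T : Set ℤ) := by
    intro n _ m _ hnm
    have := htm.injective hnm
    have h2 : (n : ℝ) = m := by linarith
    exact_mod_cast h2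
  have hiff : ∀ t ∈ Ioc S T, riemannZeta (cp t) ≠ 0 → (t ∈ LP u ↔ t ∈ Q) := by
    intro t ht hz
    have ht100 : 100 < t := lt_of_le_of_lt hS ht.1
    rw [hQ, mem_ofPred_eq, ← hXc t ht100.le, ← line_XX hu (by linarith) hz]
    constructor
    · rintro ⟨-, h3⟩; exact h3
    · intro h3; exact ⟨ht100, h3⟩
  have hne : ∀ t ∈ LP u, riemannZeta (cp t) ≠ 0 := by
    rintro t ⟨-, r, hr, h2⟩
    rw [h2]
    exact mul_ne_zero (by exact_mod_cast hr) hu
  constructor
  · have e1 : ∑ᶠ t ∈ LP u ∩ Ioc S T, ZZ t ^ p = ∑ᶠ t ∈ Q ∩ Ioc S T, ZZ t ^ p := by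
      apply finsum_mem_inter_support_eq
      ext t
      simp only [mem_inter_iff, Function.mem_support]
      constructor
      · rintro ⟨⟨h1, h2⟩, h3⟩
        exact ⟨⟨(hiff t h2 (hne t h1)).1 h1, h2⟩, h3⟩
      · rintro ⟨⟨h1, h2⟩, h3⟩
        have hz : riemannZeta (cp t) ≠ 0 := by
          intro h0
          apply h3
          unfold ZZ
          rw [h0, norm_zero, Real.zero_rpow hp.ne']
        exact ⟨⟨(hiff t h2 hz).2 h1, h2⟩, h3⟩
    rw [e1, hset, finsum_mem_image hinj, finsum_mem_coe_finset]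
    rfl
  · have h2 : (Q ∩ Ioc S T).Finite := by
      rw [hset]
      exact (Finset.finite_toSet _).image _
    refine h2.subset ?_
    rintro t ⟨h3, h4⟩
    exact ⟨(hiff t h4 (hne t h3)).1 h3, h4⟩

end Pool.Agent.W188.GP
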