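import Pool.Agent.W188.GP.Stm
import Pool.Agent.W188.QS.Asm2
import Pool.Agent.W188.Mom.B4

set_option autoImplicit false

open Complex MeasureTheory Set Filter Topology

namespace Pool.Agent.W188.GP

open Pool.Agent.W188.QS

lemma ZZ_nonneg (t : ℝ) : 0 ≤ ZZ t := norm_nonneg _

lemma ZZ_cont : Continuous ZZ := by
  unfold ZZ
  apply Continuous.norm
  rw [continuous_iff_continuousAt]
  intro t
  have h : cp t ≠ 1 := by
    intro h
    have := congrArg Complex.re h
    simp [cp] at this
  have h1 : ContinuousAt riemannZeta (cp t) := (differentiableAt_riemannZeta h).continuousAt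
  have h2 : ContinuousAt cp t := by unfold cp; fun_prop
  exact ContinuousAt.comp (f := cp) (g := riemannZeta) h1 h2

lemma ZZp_cont {p : ℝ} (hp : 0 ≤ p) : Continuous fun t => ZZ t ^ p :=
  ZZ_cont.rpow_const fun _ => Or.inr hp

/-- from blocks to the full range -/
lemma block {V : ℝ → ℝ} {A K T₀ : ℝ} (hV : Monotone V) (hA : 0 ≤ A) (hK : 0 ≤ K)
    (hT₀ : 2 ≤ T₀) (h : ∀ T, T₀ ≤ T → V (8 * T) - V T ≤ K * (T * Real.log T ^ A)) :
    ∃ B : ℝ, ∀ T : ℝ, 2 ≤ T → V T ≤ B * (T * Real.log T ^ A) := by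
  have hlog2 : 0 < Real.log 2 := Real.log_pos (by norm_num)
  set m : ℝ := 2 * Real.log 2 ^ A with hm
  have hm0 : 0 < m := by positivity
  have hG : ∀ T : ℝ, 2 ≤ T → m ≤ T * Real.log T ^ A := by
    intro T hT
    apply mul_le_mul hT _ (by positivity) (by linarith)
    exact Real.rpow_le_rpow hlog2.le (Real.log_le_log (by norm_num) hT) hA
  set B : ℝ := max (|V (8 * T₀)| / m) K with hB
  have hB0 : 0 ≤ B := le_trans (by positivity) (le_max_left _ _)
  refine ⟨B, ?_⟩
  have base : ∀ T : ℝ, 2 ≤ T → T ≤ 8 * T₀ → V T ≤ B * (T * Real.log T ^ A) := by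
    intro T h2 h8
    have h3 : V T ≤ |V (8 * T₀)| := (hV h8).trans (le_abs_self _)
    refine h3.trans ?_
    calc |V (8 * T₀)| = |V (8 * T₀)| / m * m := by field_simp
      _ ≤ B * (T * Real.log T ^ A) := by
        apply mul_le_mul (le_max_left _ _) (hG T h2) hm0.le hB0
  have step : ∀ n : ℕ, ∀ T : ℝ, 2 ≤ T → T ≤ 8 ^ (n + 1) * T₀ → V T ≤ B * (T * Real.log T ^ A) := by
    intro n
    induction n with
    | zero => intro T h2 h8; exact base T h2 (by simpa using h8)
    | succ n ih =>
      intro T h2 h8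
      by_cases hc : T ≤ 8 * T₀
      · exact base T h2 hc
      · push Not at hc
        have h4 : T₀ ≤ T / 8 := by linarith
        have h5 := ih (T / 8) (by linarith) (by
          rw [pow_succ] at h8
          linarith)
        have h6 := h (T / 8) h4
        rw [show 8 * (T / 8) = T by ring] at h6
        have h7 : Real.log (T / 8) ^ A ≤ Real.log T ^ A := by
          apply Real.rpow_le_rpow _ _ hA
          · exact Real.log_nonneg (by linarith)
          · exact Real.log_le_log (by linarith) (by linarith)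
        have hlT : 0 ≤ Real.log T ^ A := Real.rpow_nonneg (Real.log_nonneg (by linarith)) _
        have hKB : K ≤ B := le_max_right _ _
        have h8' : V T ≤ (B + K) * (T / 8 * Real.log (T / 8) ^ A) := by linarith
        calc V T ≤ (B + K) * (T / 8 * Real.log (T / 8) ^ A) := h8'
          _ ≤ (B + B) * (T / 8 * Real.log T ^ A) := by
              apply mul_le_mul (by linarith) _ _ (by linarith)
              · exact mul_le_mul_of_nonneg_left h7 (by linarith)
              · have : 0 ≤ Real.log (T / 8) ^ A :=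
                  Real.rpow_nonneg (Real.log_nonneg (by linarith)) _
                have : 0 ≤ T / 8 := by linarith
                positivity
          _ = (B / 4) * (T * Real.log T ^ A) := by ring
          _ ≤ B * (T * Real.log T ^ A) := by
              apply mul_le_mul_of_nonneg_right (by linarith)
              have : 0 ≤ T := by linarith
              positivity
  intro T hT
  obtain ⟨n, hn⟩ := pow_unbounded_of_one_lt (T / T₀) (by norm_num : (1 : ℝ) < 8)
  apply step n T hT
  have hT00 : 0 < T₀ := by linarith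
  rw [div_lt_iff₀ hT00] at hn
  calc T ≤ 8 ^ n * T₀ := hn.le
    _ ≤ 8 ^ (n + 1) * T₀ := by
      apply mul_le_mul_of_nonneg_right _ hT00.le
      exact pow_le_pow_right₀ (by norm_num) (by omega)

lemma DD_nonneg (p γ a b : ℝ) : 0 ≤ DD p γ a b :=
  Finset.sum_nonneg fun _ _ => Real.rpow_nonneg (ZZ_nonneg _) _

lemma nd_sub (h : StTau) {γ a b a' b' : ℝ} (h1 : a' ≤ a) (h2 : b ≤ b') : nd γ a b ⊆ nd γ a' b' := by
  intro n hn
  rw [h.2.2.2.2.2.2.2.2.2.2.2.2] at hn ⊢
  exact ⟨by linarith [hn.1], by linarith [hn.2]⟩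

lemma DD_mono (h : StTau) {p γ a b a' b' : ℝ} (h1 : a' ≤ a) (h2 : b ≤ b') :
    DD p γ a b ≤ DD p γ a' b' :=
  Finset.sum_le_sum_of_subset_of_nonneg (nd_sub h h1 h2)
    fun _ _ _ => Real.rpow_nonneg (ZZ_nonneg _) _

lemma DD_add (h : StTau) {p γ a b d : ℝ} (h1 : a ≤ b) (h2 : b ≤ d) :
    DD p γ a d = DD p γ a b + DD p γ b d := by
  unfold DD
  rw [← Finset.sum_union]
  · congr 1
    ext n
    rw [Finset.mem_union, h.2.2.2.2.2.2.2.2.2.2.2.2, h.2.2.2.2.2.2.2.2.2.2.2.2,
      h.2.2.2.2.2.2.2.2.2.2.2.2]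
    constructor
    · rintro ⟨h3, h4⟩
      rcases le_or_gt (tau (n + γ)) b with h5 | h5
      · exact Or.inl ⟨h3, h5⟩
      · exact Or.inr ⟨h5, h4⟩
    · rintro (⟨h3, h4⟩ | ⟨h3, h4⟩)
      · exact ⟨h3, h4.trans h2⟩
      · exact ⟨lt_of_le_of_lt h1 h3, h4⟩
  · rw [Finset.disjoint_left]
    intro n hn hn'
    rw [h.2.2.2.2.2.2.2.2.2.2.2.2] at hn hn'
    linarith [hn.2, hn'.1]

/-- growth of the continuous and the discrete moments -/
theorem growth (h1 : StTau) (h2 : StFin) {p : ℝ} (hp : 1 < p) (γ : ℝ) {A : ℝ} (hA : 0 ≤ A) :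
    (∃ B : ℝ, ∀ T : ℝ, 2 ≤ T → ∫ t in (0 : ℝ)..T, ZZ t ^ p ≤ B * (T * Real.log T ^ A)) ↔
    (∃ B : ℝ, ∀ T : ℝ, 2 ≤ T → DD p γ 100 T ≤ B * (T * Real.log T ^ (A + 1))) := by
  obtain ⟨C, T₁, hC, hF⟩ := h2 p hp
  have hcont := ZZp_cont (p := p) (by linarith)
  have hii : ∀ a b : ℝ, IntervalIntegrable (fun t => ZZ t ^ p) volume a b :=
    fun a b => hcont.intervalIntegrable a b
  have hnn : ∀ t, 0 ≤ ZZ t ^ p := fun t => Real.rpow_nonneg (ZZ_nonneg _) _
  have hlog16 : ∀ T : ℝ, 16 ≤ T → 1 ≤ Real.log T ∧ Real.log (16 * T) ≤ 2 * Real.log T := by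
    intro T hT
    constructor
    · rw [Real.le_log_iff_exp_le (by linarith)]
      have := Real.exp_one_lt_d9
      linarith
    · have h3 : Real.log (16 * T) ≤ Real.log (T ^ 2) := by
        apply Real.log_le_log (by linarith)
        nlinarith
      rw [Real.log_pow] at h3
      exact_mod_cast h3
  constructor
  · rintro ⟨B, hB⟩
    apply block (V := fun T => DD p γ 100 T) (K := C * (|B| * (16 * 2 ^ A))) (T₀ := max T₁ 200)
    · intro x y hxy
      exact DD_mono h1 le_rfl hxy
    · linarith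
    · positivity
    · exact le_trans (by norm_num) (le_max_right _ _)
    · intro T hT
      have hT1 : T₁ ≤ T := (le_max_left _ _).trans hT
      have hT2 : 200 ≤ T := (le_max_right _ _).trans hT
      obtain ⟨hl1, hl2⟩ := hlog16 T (by linarith)
      have e1 : DD p γ 100 (8 * T) - DD p γ 100 T = DD p γ T (8 * T) := by
        rw [DD_add h1 (a := 100) (b := T) (d := 8 * T) (by linarith) (by linarith)]
        ring
      show DD p γ 100 (8 * T) - DD p γ 100 T ≤ _
      rw [e1]
      have h3 := (hF T γ hT1).2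
      have h4 : ∫ t in (T / 2)..(16 * T), ZZ t ^ p ≤ ∫ t in (0 : ℝ)..(16 * T), ZZ t ^ p := by
        apply intervalIntegral.integral_mono_interval (by linarith) (by linarith) le_rfl
        · exact Filter.Eventually.of_forall hnn
        · exact hii _ _
      have h5 := hB (16 * T) (by linarith)
      have h6 : Real.log (16 * T) ^ A ≤ 2 ^ A * Real.log T ^ A := by
        rw [← Real.mul_rpow (by norm_num) (by linarith)]
        exact Real.rpow_le_rpow (Real.log_nonneg (by linarith)) hl2 hA
      have h7 : ∫ t in (T / 2)..(16 * T), ZZ t ^ p ≤ |B| * (16 * T * (2 ^ A * Real.log T ^ A)) := by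
        refine h4.trans (h5.trans ?_)
        have hpos : 0 ≤ Real.log (16 * T) ^ A := Real.rpow_nonneg (Real.log_nonneg (by linarith)) _
        apply mul_le_mul (le_abs_self _) _ (by positivity) (abs_nonneg _)
        exact mul_le_mul_of_nonneg_left h6 (by linarith)
      calc DD p γ T (8 * T) ≤ C * (Real.log T * ∫ t in (T / 2)..(16 * T), ZZ t ^ p) := h3
        _ ≤ C * (Real.log T * (|B| * (16 * T * (2 ^ A * Real.log T ^ A)))) := by
            apply mul_le_mul_of_nonneg_left _ hC.le
            exact mul_le_mul_of_nonneg_left h7 (by linarith)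
        _ = C * (|B| * (16 * 2 ^ A)) * (T * (Real.log T ^ A * Real.log T)) := by ring
        _ = _ := by rw [← Real.rpow_add_one (by linarith)]
  · rintro ⟨B, hB⟩
    apply block (V := fun T => ∫ t in (0 : ℝ)..T, ZZ t ^ p)
      (K := C * (|B| * (16 * 2 ^ (A + 1)))) (T₀ := max T₁ 200)
    · intro x y hxy
      show ∫ t in (0 : ℝ)..x, ZZ t ^ p ≤ ∫ t in (0 : ℝ)..y, ZZ t ^ p
      rw [← intervalIntegral.integral_add_adjacent_intervals (hii 0 x) (hii x y)]
      have := intervalIntegral.integral_nonneg hxy (μ := volume) (f := fun t => ZZ t ^ p)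
        (fun t _ => hnn t)
      linarith
    · exact hA
    · positivity
    · exact le_trans (by norm_num) (le_max_right _ _)
    · intro T hT
      have hT1 : T₁ ≤ T := (le_max_left _ _).trans hT
      have hT2 : 200 ≤ T := (le_max_right _ _).trans hT
      obtain ⟨hl1, hl2⟩ := hlog16 T (by linarith)
      show (∫ t in (0 : ℝ)..(8 * T), ZZ t ^ p) - ∫ t in (0 : ℝ)..T, ZZ t ^ p ≤ _
      rw [← intervalIntegral.integral_add_adjacent_intervals (hii 0 T) (hii T (8 * T)), add_sub_cancel_left]
      have h3 := (hF T γ hT1).1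
      have h4 : DD p γ (T / 2) (16 * T) ≤ DD p γ 100 (16 * T) := DD_mono h1 (by linarith) le_rfl
      have h5 := hB (16 * T) (by linarith)
      have h6 : Real.log (16 * T) ^ (A + 1) ≤ 2 ^ (A + 1) * Real.log T ^ (A + 1) := by
        rw [← Real.mul_rpow (by norm_num) (by linarith)]
        exact Real.rpow_le_rpow (Real.log_nonneg (by linarith)) hl2 (by linarith)
      have h7 : DD p γ (T / 2) (16 * T) ≤ |B| * (16 * T * (2 ^ (A + 1) * Real.log T ^ (A + 1))) := by
        refine h4.trans (h5.trans ?_)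
        have hpos : 0 ≤ Real.log (16 * T) ^ (A + 1) :=
          Real.rpow_nonneg (Real.log_nonneg (by linarith)) _
        apply mul_le_mul (le_abs_self _) _ (by positivity) (abs_nonneg _)
        exact mul_le_mul_of_nonneg_left h6 (by linarith)
      have h8 : Real.log T * ∫ t in T..(8 * T), ZZ t ^ p ≤
          Real.log T * (C * (|B| * (16 * 2 ^ (A + 1))) * (T * Real.log T ^ A)) := by
        refine h3.trans ?_
        calc C * DD p γ (T / 2) (16 * T) ≤ C * (|B| * (16 * T * (2 ^ (A + 1) * Real.log T ^ (A + 1)))) :=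
              mul_le_mul_of_nonneg_left h7 hC.le
          _ = C * (|B| * (16 * T * (2 ^ (A + 1) * (Real.log T ^ A * Real.log T)))) := by
              rw [← Real.rpow_add_one (by linarith)]
          _ = _ := by ring
      exact le_of_mul_le_mul_left h8 (by linarith)

/-- lower bound for the discrete moments -/
theorem disc_lower (h2 : StFin) {p : ℝ} (hp : 2 ≤ p) : ∃ c T₀ : ℝ, 0 < c ∧ ∀ T γ : ℝ, T₀ ≤ T →
    c * (T * Real.log T ^ (p ^ 2 / 4 + 1)) ≤ DD p γ (T / 2) (16 * T) := by
  obtain ⟨C, T₁, hC, hF⟩ := h2 p (by linarith)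
  obtain ⟨c, hc, hlow⟩ := Pool.Agent.W188.Mom.lower hp
  obtain ⟨T₂, hT₂⟩ := eventually_atTop.1 hlow
  refine ⟨c / C, max (max T₁ T₂) 3, by positivity, fun T γ hT => ?_⟩
  have hT1 : T₁ ≤ T := ((le_max_left _ _).trans (le_max_left _ _)).trans hT
  have hT2 : T₂ ≤ T := ((le_max_right _ _).trans (le_max_left _ _)).trans hT
  have hT3 : 3 ≤ T := (le_max_right _ _).trans hT
  have hlog : 0 < Real.log T := Real.log_pos (by linarith)
  have h3 := (hF T γ hT1).1
  have h4 := hT₂ T hT2
  have hcont := ZZp_cont (p := p) (by linarith)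
  have h5 : ∫ t in T..(T + T), Pool.Agent.W188.Mom.Z t ^ p ≤ ∫ t in T..(8 * T), ZZ t ^ p := by
    apply intervalIntegral.integral_mono_interval le_rfl (by linarith) (by linarith)
    · exact Filter.Eventually.of_forall fun t => Real.rpow_nonneg (ZZ_nonneg _) _
    · exact hcont.intervalIntegrable _ _
  rw [div_mul_eq_mul_div, div_le_iff₀ hC]
  calc c * (T * Real.log T ^ (p ^ 2 / 4 + 1))
      = Real.log T * (c * (T * Real.log T ^ (p ^ 2 / 4))) := by
        rw [Real.rpow_add_one hlog.ne']; ring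
    _ ≤ Real.log T * ∫ t in T..(8 * T), ZZ t ^ p :=
        mul_le_mul_of_nonneg_left (h4.trans h5) hlog.le
    _ ≤ C * DD p γ (T / 2) (16 * T) := h3
    _ = _ := mul_comm _ _

end Pool.Agent.W188.GP
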